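import Pool.Agent.K1H20.RS.Stm

set_option autoImplicit false

/-! Piece SW of project RS: exchange of the two polynomials in the resultant. -/

namespace Pool.Agent.K1H14.RS

open MvPolynomial Pool.Agent.H628R4.TP Pool.Agent.K1H20.RS

/-- conjugation of an operator by a renaming of the variables -/
lemma conj_mem {σ τ : Type} (e : σ ≃ τ) (P : Module.End ℂ (MvPolynomial τ ℂ))
    (hP : P ∈ weylS τ) :
    ∃ Q ∈ weylS σ, ∀ g : MvPolynomial σ ℂ, Q g = rename e.symm (P (rename e g)) := by
  classical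
  have hre : ∀ p : MvPolynomial τ ℂ, rename e (rename e.symm p) = p := fun p => by
    rw [rename_rename]; simp
  have hre' : ∀ p : MvPolynomial σ ℂ, rename e.symm (rename e p) = p := fun p => by
    rw [rename_rename]; simp
  unfold weylS at hP
  induction hP using Algebra.adjoin_induction with
  | mem x hx =>
    rcases hx with ⟨i, rfl⟩ | ⟨i, rfl⟩
    · refine ⟨LinearMap.mulLeft ℂ (X (e.symm i)),
        Algebra.subset_adjoin (Or.inl ⟨e.symm i, rfl⟩), fun g => ?_⟩
      rw [LinearMap.mulLeft_apply, LinearMap.mulLeft_apply, map_mul, rename_X, hre']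
    · refine ⟨_, Algebra.subset_adjoin (Or.inr ⟨e.symm i, rfl⟩), fun g => ?_⟩
      have h := pderiv_rename e.injective (e.symm i) g
      rw [Equiv.apply_symm_apply] at h
      change pderiv (e.symm i) g = rename e.symm (pderiv i (rename e g))
      rw [h, hre']
  | algebraMap r =>
    refine ⟨algebraMap ℂ _ r, Subalgebra.algebraMap_mem _ r, fun g => ?_⟩
    rw [Module.algebraMap_end_apply, Module.algebraMap_end_apply, map_smul, hre']
  | add x y hx hy h1 h2 =>
    obtain ⟨Q, hQ, hQ'⟩ := h1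
    obtain ⟨R, hR, hR'⟩ := h2
    refine ⟨Q + R, Subalgebra.add_mem _ hQ hR, fun g => ?_⟩
    rw [LinearMap.add_apply, LinearMap.add_apply, map_add, hQ', hR']
  | mul x y hx hy h1 h2 =>
    obtain ⟨Q, hQ, hQ'⟩ := h1
    obtain ⟨R, hR, hR'⟩ := h2
    refine ⟨Q * R, Subalgebra.mul_mem _ hQ hR, fun g => ?_⟩
    rw [Module.End.mul_apply, Module.End.mul_apply, hQ', hR', hre]

/-- functional equations of a polynomial, after a renaming of the variables and multiplication by a
constant `c ≠ 0` -/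
lemma bfun_rename {σ τ : Type} (e : σ ≃ τ) (F : MvPolynomial σ ℂ) (G : MvPolynomial τ ℂ) (c : ℂ)
    (hc : c ≠ 0) (hG : G = C c * rename e F) (b : Polynomial ℂ) (h : IsBFunction F b) :
    IsBFunction G b := by
  classical
  obtain ⟨P, hP⟩ := h
  have key : ∀ m : ℕ, ∃ Q : weylS τ, ∀ g : MvPolynomial τ ℂ,
      (Q : Module.End ℂ (MvPolynomial τ ℂ)) g =
        c⁻¹ • rename e ((P m : Module.End ℂ (MvPolynomial σ ℂ)) (rename e.symm g)) := by
    intro m
    obtain ⟨Q, hQ, hQ'⟩ := conj_mem e.symm (P m).1 (P m).2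
    refine ⟨⟨c⁻¹ • Q, Subalgebra.smul_mem _ hQ _⟩, fun g => ?_⟩
    change (c⁻¹ • Q) g = _
    rw [LinearMap.smul_apply, hQ', Equiv.symm_symm]
  choose R hR using key
  have hre : ∀ p : MvPolynomial σ ℂ, rename e.symm (rename e p) = p := fun p => by
    rw [rename_rename]; simp
  refine ⟨Finsupp.onFinset P.support (fun m => if m ∈ P.support then R m else 0) (fun m hm => by
        by_contra h
        exact hm (if_neg h)), fun s => ?_⟩
  have h1 := congrArg (rename e) (hP s)
  rw [map_mul, map_pow, rename_C, Finsupp.sum, map_sum] at h1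
  have h2 : C (b.eval (s : ℂ)) * G ^ s = (C c) ^ s * (C (b.eval (s : ℂ)) * (rename e F) ^ s) := by
    rw [hG, mul_pow]
    ring
  have h3 : rename e.symm (G ^ (s + 1)) = (c ^ (s + 1)) • F ^ (s + 1) := by
    rw [hG, mul_pow, map_mul, map_pow, map_pow, rename_C, hre, ← C_pow,
      ← MvPolynomial.smul_eq_C_mul]
  rw [h2, h1, Finsupp.onFinset_sum]
  · rw [Finset.mul_sum]
    refine Finset.sum_congr rfl fun m hm => ?_
    rw [if_pos hm, hR, h3, ← C_pow, ← MvPolynomial.smul_eq_C_mul, map_smul, map_smul, map_smul,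
      smul_smul, smul_smul, smul_smul]
    congr 1
    rw [pow_succ]
    field_simp
  · intro m
    simp

theorem RSC_swap (m n : ℕ) :
    RSC n m = C ((-1 : ℂ) ^ (m * n)) * rename (Equiv.sumComm (Fin (m + 1)) (Fin (n + 1))) (RSC m n) := by
  have h1 : rename (Equiv.sumComm (Fin (m + 1)) (Fin (n + 1))) (RSC m n) =
      rs m n fun i => (X (Equiv.sumComm (Fin (m + 1)) (Fin (n + 1)) i) : MvPolynomial (Co n m) ℂ) := by
    rw [← aeval_RSC, ← aeval_X_left_apply (rename _ (RSC m n)), aeval_rename]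
    rfl
  rw [h1, RSC_eq]
  unfold rs
  rw [Polynomial.resultant_comm, map_pow, map_neg, map_one, mul_comm n m]
  rfl

/-- **Piece SW.** -/
theorem t_SW : S_SW := by
  intro m n b h
  exact bfun_rename (Equiv.sumComm (Fin (m + 1)) (Fin (n + 1))) (RSC m n) (RSC n m)
    ((-1 : ℂ) ^ (m * n)) (pow_ne_zero _ (by norm_num)) (RSC_swap m n) b h

end Pool.Agent.K1H14.RS
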